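import Mathlib
import Pool.Agent.Y882.DE.Main
import Pool.Agent.Y882.DE.Pad

/-!
# Small values of integer polynomials of exact degree: `w_{=n}(ζ) ≥ ŵ_n(ζ)`

For every `n ≥ 1` the inequality `w_{=n}(ζ) ≥ ŵ_n(ζ)` holds for every transcendental real, complex
or `p`-adic number `ζ`; for real numbers `ŵ_n(ζ) ≥ n`, so that this contains the answer to Q1. The
inequality was known for real numbers and `n ≤ 3` only.
-/

open Polynomial

namespace Pool.Agent.Results.MP_c2475b_nt.UniformExponentBound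

/-- The naive height of an integer polynomial: the maximum of the absolute values of its
coefficients. -/
def naiveHeight (P : ℤ[X]) : ℕ := P.support.sup fun i => (P.coeff i).natAbs

/-- For all sufficiently large real `X` there is an integer polynomial `P` of degree at most `n`
with `H(P) ≤ X` and `0 < ‖P(ζ)‖ ≤ X^(-w)`. -/
def UniformlySolvable {K : Type*} [NormedField K] (n : ℕ) (ζ : K) (w : ℝ) : Prop :=
  ∃ X₀ : ℝ, ∀ X : ℝ, X₀ ≤ X → 1 ≤ X → ∃ P : ℤ[X], P.natDegree ≤ n ∧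
    (naiveHeight P : ℝ) ≤ X ∧ 0 < ‖aeval ζ P‖ ∧ ‖aeval ζ P‖ ≤ X ^ (-w)

/-- For arbitrarily large real `X ≥ 1` there is an irreducible integer polynomial `P` of degree
exactly `n` with `H(P) ≤ X` and `0 < ‖P(ζ)‖ ≤ X^(-w)`. -/
def SolvableInExactDegree {K : Type*} [NormedField K] (n : ℕ) (ζ : K) (w : ℝ) : Prop :=
  ∀ X₀ : ℝ, ∃ X : ℝ, X₀ ≤ X ∧ 1 ≤ X ∧ ∃ P : ℤ[X], P.natDegree = n ∧ Irreducible P ∧
    (naiveHeight P : ℝ) ≤ X ∧ 0 < ‖aeval ζ P‖ ∧ ‖aeval ζ P‖ ≤ X ^ (-w)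

/-- The uniform exponent `ŵ_n(ζ)`, as an extended real number. -/
noncomputable def wHat {K : Type*} [NormedField K] (n : ℕ) (ζ : K) : EReal :=
  sSup {w : EReal | ∃ r : ℝ, w = (r : EReal) ∧ UniformlySolvable n ζ r}

/-- The exponent `w_{=n}(ζ)`, as an extended real number. -/
noncomputable def wExact {K : Type*} [NormedField K] (n : ℕ) (ζ : K) : EReal :=
  sSup {w : EReal | ∃ r : ℝ, w = (r : EReal) ∧ SolvableInExactDegree n ζ r}

/-- For every `n ≥ 1` and every transcendental real `ζ`, `n ≤ ŵ_n(ζ) ≤ w_{=n}(ζ)`. For every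
transcendental complex `ζ`, `ŵ_n(ζ) ≤ w_{=n}(ζ)`. For every prime `p` and every transcendental
`p`-adic `ζ`, `n + 1 ≤ ŵ_n(ζ) ≤ w_{=n}(ζ)`. -/
theorem result : ∀ n : ℕ, 1 ≤ n →
    (∀ ζ : ℝ, Transcendental ℚ ζ → (n : EReal) ≤ wHat n ζ ∧ wHat n ζ ≤ wExact n ζ) ∧
    (∀ ζ : ℂ, Transcendental ℚ ζ → wHat n ζ ≤ wExact n ζ) ∧
    (∀ (p : ℕ) [Fact p.Prime] (ζ : ℚ_[p]), Transcendental ℚ ζ →
      ((n : EReal) + 1) ≤ wHat n ζ ∧ wHat n ζ ≤ wExact n ζ) := by
  intro n hn
  refine ⟨?_, ?_, ?_⟩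
  · intro ζ hζ
    have hζ' : Transcendental ℤ ζ := by
      intro h
      exact hζ (h.extendScalars (RingHom.injective_int (algebraMap ℤ ℚ)))
    refine ⟨?_, ?_⟩
    · have := Pool.Agent.Y882.DE.le_wHat n ζ hζ' (n : ℝ)
        (fun v hv => Pool.Agent.Y882.DE.uni_real n hn ζ v hv)
      exact_mod_cast this
    · apply Pool.Agent.Y882.DE.arch n hn ζ hζ'
      intro k hk
      rw [Real.norm_eq_abs]
      exact_mod_cast Int.one_le_abs hk
  · intro ζ hζ
    have hζ' : Transcendental ℤ ζ := by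
      intro h
      exact hζ (h.extendScalars (RingHom.injective_int (algebraMap ℤ ℚ)))
    apply Pool.Agent.Y882.DE.arch n hn ζ hζ'
    intro k hk
    rw [Complex.norm_intCast]
    exact_mod_cast Int.one_le_abs hk
  · intro p hp ζ hζ
    have hζ' : Transcendental ℤ ζ := by
      intro h
      exact hζ (h.extendScalars (RingHom.injective_int (algebraMap ℤ ℚ)))
    have h1 : ((n : EReal) + 1) ≤ wHat n ζ := by
      have := Pool.Agent.Y882.DE.le_wHat n ζ hζ' ((n : ℝ) + 1)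
        (fun v hv => Pool.Agent.Y882.DE.uni_padic p n ζ v hv)
      exact_mod_cast this
    refine ⟨h1, ?_⟩
    apply Pool.Agent.Y882.DE.nonarch n hn ζ hζ'
      (fun k hk => Pool.Agent.Y882.DE.padic_norm_int p k hk)
    refine lt_of_lt_of_le ?_ h1
    have h2 : (1 : EReal) < ((n : ℝ) + 1 : ℝ) := by
      have h3 : (1 : ℝ) < (n : ℝ) + 1 := by
        have : (1 : ℝ) ≤ n := by exact_mod_cast hn
        linarith
      exact_mod_cast h3
    have h4 : (((n : ℝ) + 1 : ℝ) : EReal) = (n : EReal) + 1 := by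
      push_cast
      norm_cast
    rwa [h4] at h2

end Pool.Agent.Results.MP_c2475b_nt.UniformExponentBound
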